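import Mathlib

/-!
# MP_5351bf_an : largest characteristic factor of a product with an identity map
-/

set_option autoImplicit false

open MeasureTheory Filter Topology ProbabilityTheory

namespace Pool.Agent.Results.MP_5351bf_an.IdentityProduct

/-- An automorphism of a standard probability space. -/
structure Sys where
  /-- the underlying space -/
  X : Type
  [mX : MeasurableSpace X]
  [sX : StandardBorelSpace X]
  /-- the invariant probability measure -/
  μ : Measure X
  [pμ : IsProbabilityMeasure μ]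
  /-- the automorphism -/
  T : X ≃ᵐ X
  mp : MeasurePreserving T μ μ

attribute [instance] Sys.mX Sys.sX Sys.pμ

/-- `π` is a factor map from the automorphism `S` onto the automorphism `R`. -/
structure FactorMap (S R : Sys) (π : S.X → R.X) : Prop where
  mp : MeasurePreserving π S.μ R.μ
  eqv : ∀ᵐ x ∂S.μ, π (S.T x) = R.T (π x)

/-- The joining of countably many automorphisms `Z i` given by an invariant measure `ρ` on the
product of the spaces. -/
def joinSys {ι : Type} [Countable ι] (Z : ι → Sys) (ρ : Measure (∀ i, (Z i).X))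
    [IsProbabilityMeasure ρ]
    (h : MeasurePreserving (MeasurableEquiv.piCongrRight fun i => (Z i).T) ρ ρ) : Sys :=
  ⟨∀ i, (Z i).X, ρ, MeasurableEquiv.piCongrRight fun i => (Z i).T, h⟩

/-- A characteristic class of automorphisms (containing all identity maps): closed under factors
(in particular under isomorphism) and under countable joinings. -/
structure CharClass (F : Sys → Prop) : Prop where
  factor : ∀ (S R : Sys) (π : S.X → R.X), F S → FactorMap S R π → F R
  joining : ∀ (ι : Type) [Countable ι] (Z : ι → Sys) (ρ : Measure (∀ i, (Z i).X))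
    [IsProbabilityMeasure ρ]
    (h : MeasurePreserving (MeasurableEquiv.piCongrRight fun i => (Z i).T) ρ ρ),
    (∀ i, MeasurePreserving (Function.eval i) ρ (Z i).μ) → (∀ i, F (Z i)) → F (joinSys Z ρ h)
  ident : ∀ S : Sys, (∀ x, S.T x = x) → F S

/-- `m` is (the sub-σ-algebra, taken modulo null sets, of) a factor of `S` that belongs to the
class `F`: for some factor map `π` onto a member of `F`, the sets of `m` are exactly the
measurable sets that agree up to a null set with a preimage under `π` of a measurable set. -/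
def IsFactorAlg (F : Sys → Prop) (S : Sys) (m : MeasurableSpace S.X) : Prop :=
  ∃ R : Sys, F R ∧ ∃ π : S.X → R.X, FactorMap S R π ∧
    ∀ A : Set S.X, MeasurableSet[m] A ↔
      (MeasurableSet[S.mX] A ∧ ∃ B : Set R.X, MeasurableSet[R.mX] B ∧ A =ᵐ[S.μ] π ⁻¹' B)

/-- `m` is the largest invariant sub-σ-algebra of `S` whose factor lies in `F`. -/
def IsLargest (F : Sys → Prop) (S : Sys) (m : MeasurableSpace S.X) : Prop :=
  IsFactorAlg F S m ∧ ∀ m' : MeasurableSpace S.X, IsFactorAlg F S m' → m' ≤ m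

/-- The product of the automorphism `S` with the identity map of `(Y, ν)`. -/
noncomputable def Sys.prodId (S : Sys) (Y : Type) [MeasurableSpace Y] [StandardBorelSpace Y] (ν : Measure Y)
    [IsProbabilityMeasure ν] : Sys :=
  ⟨S.X × Y, S.μ.prod ν, S.T.prodCongr (MeasurableEquiv.refl Y),
    S.mp.prod (MeasurePreserving.id ν)⟩

/-- The identity map of `(Y, ν)`. -/
noncomputable def idSys (Y : Type) [MeasurableSpace Y] [StandardBorelSpace Y] (ν : Measure Y)
    [IsProbabilityMeasure ν] : Sys :=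
  ⟨Y, ν, MeasurableEquiv.refl Y, MeasurePreserving.id ν⟩

variable {F : Sys → Prop}

/-- the σ-algebra (modulo null sets) of a factor map -/
def satAlg (S R : Sys) (π : S.X → R.X) (hπ : Measurable π) : MeasurableSpace S.X where
  MeasurableSet' A := MeasurableSet A ∧ ∃ B : Set R.X, MeasurableSet B ∧ A =ᵐ[S.μ] π ⁻¹' B
  measurableSet_empty := ⟨MeasurableSet.empty, ∅, MeasurableSet.empty, by simp⟩
  measurableSet_compl A hA := by
    obtain ⟨h1, B, hB, h2⟩ := hA
    exact ⟨h1.compl, Bᶜ, hB.compl, by rw [Set.preimage_compl]; exact h2.compl⟩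
  measurableSet_iUnion A hA := by
    choose h1 B hB h2 using hA
    refine ⟨MeasurableSet.iUnion h1, ⋃ i, B i, MeasurableSet.iUnion hB, ?_⟩
    rw [Set.preimage_iUnion]
    exact Filter.EventuallyEq.countable_iUnion h2

lemma isFactorAlg_satAlg {S R : Sys} {π : S.X → R.X} (hR : F R) (hπ : FactorMap S R π) :
    IsFactorAlg F S (satAlg S R π hπ.mp.measurable) :=
  ⟨R, hR, π, hπ, fun _ => Iff.rfl⟩

lemma joint (hF : CharClass F) (S : Sys) {ι : Type} [Countable ι] (R : ι → Sys)
    (hR : ∀ i, F (R i)) (π : ∀ i, S.X → (R i).X) (hπ : ∀ i, FactorMap S (R i) (π i)) :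
    ∃ J : Sys, F J ∧ ∃ Q : S.X → J.X, FactorMap S J Q ∧ ∀ i, ∃ e : J.X → (R i).X,
      Measurable e ∧ ∀ x, π i x = e (Q x) := by
  set Q : S.X → ∀ i, (R i).X := fun x i => π i x with hQ
  have hQm : Measurable Q := measurable_pi_lambda _ fun i => (hπ i).mp.measurable
  have hQT : ∀ᵐ x ∂S.μ, Q (S.T x) = (MeasurableEquiv.piCongrRight fun i => (R i).T) (Q x) := by
    have := ae_all_iff.2 fun i => (hπ i).eqv
    filter_upwards [this] with x hx
    funext i
    exact hx i
  have : IsProbabilityMeasure (S.μ.map Q) := Measure.isProbabilityMeasure_map hQm.aemeasurable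
  have hρ : MeasurePreserving (MeasurableEquiv.piCongrRight fun i => (R i).T)
      (S.μ.map Q) (S.μ.map Q) := by
    refine ⟨MeasurableEquiv.measurable _, ?_⟩
    rw [Measure.map_map (MeasurableEquiv.measurable _) hQm]
    have : (MeasurableEquiv.piCongrRight fun i => (R i).T) ∘ Q =ᵐ[S.μ] Q ∘ S.T := by
      filter_upwards [hQT] with x hx
      exact hx.symm
    rw [Measure.map_congr this, ← Measure.map_map hQm S.T.measurable, S.mp.map_eq]
  have hJ : F (joinSys R (S.μ.map Q) hρ) := by
    refine hF.joining ι R _ hρ (fun i => ⟨measurable_pi_apply i, ?_⟩) hR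
    rw [Measure.map_map (measurable_pi_apply i) hQm]
    exact (hπ i).mp.map_eq
  exact ⟨_, hJ, Q, ⟨⟨hQm, rfl⟩, hQT⟩, fun i => ⟨fun z => z i, measurable_pi_apply i,
    fun x => rfl⟩⟩

/-- The largest factor in a characteristic class exists. -/
lemma exists_largest (hF : CharClass F) (S : Sys) : ∃ m : MeasurableSpace S.X,
    IsLargest F S m := by
  classical
  let K : Set (Lp ℝ 1 S.μ) := {f | ∃ (R : Sys) (π : S.X → R.X) (B : Set R.X) (hπ : FactorMap S R π)
    (hB : MeasurableSet B), F R ∧
      f = indicatorConstLp 1 (hπ.mp.measurable hB) (measure_ne_top S.μ _) (1 : ℝ)}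
  obtain ⟨t, htK, htc, hKt⟩ : ∃ t ⊆ K, t.Countable ∧ K ⊆ closure t := by
    have : Fact ((1 : ENNReal) ≠ ⊤) := ⟨ENNReal.one_ne_top⟩
    have : SecondCountableTopology (Lp ℝ 1 S.μ) := inferInstance
    exact (TopologicalSpace.IsSeparable.of_separableSpace K).exists_countable_dense_subset
  have : Countable t := htc.to_subtype
  choose R π B hπ hB hR hf using fun f : t => htK f.2
  obtain ⟨J, hJ, Q, hQ, he⟩ := joint hF S R hR π hπ
  have hle : MeasurableSpace.comap Q inferInstance ≤ S.mX := hQ.mp.measurable.comap_le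
  have hcl : IsClosed {f : Lp ℝ 1 S.μ | AEStronglyMeasurable[MeasurableSpace.comap Q
      inferInstance] f S.μ} := isClosed_aestronglyMeasurable hle
  have hsub : K ⊆ {f : Lp ℝ 1 S.μ | AEStronglyMeasurable[MeasurableSpace.comap Q
      inferInstance] f S.μ} := by
    refine hKt.trans (closure_minimal ?_ hcl)
    intro f hft
    obtain ⟨e, hem, hex⟩ := he ⟨f, hft⟩
    refine ⟨Set.indicator (Q ⁻¹' (e ⁻¹' (B ⟨f, hft⟩))) fun _ => (1 : ℝ), ?_, ?_⟩
    · exact StronglyMeasurable.indicator stronglyMeasurable_const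
        ⟨e ⁻¹' (B ⟨f, hft⟩), hem (hB ⟨f, hft⟩), rfl⟩
    · have h1 := hf ⟨f, hft⟩
      change f = _ at h1
      have h2 : Q ⁻¹' (e ⁻¹' (B ⟨f, hft⟩)) = π ⟨f, hft⟩ ⁻¹' (B ⟨f, hft⟩) := by
        ext x
        simp only [Set.mem_preimage]
        rw [← hex x]
      rw [h2]
      nth_rewrite 1 [h1]
      exact indicatorConstLp_coeFn
  have key : ∀ (R' : Sys) (hR' : F R') (π' : S.X → R'.X) (hπ' : FactorMap S R' π')
      (A : Set S.X) (hAm : MeasurableSet A) (B' : Set R'.X) (hB' : MeasurableSet B')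
      (hAB : A =ᵐ[S.μ] π' ⁻¹' B'), MeasurableSet[satAlg S J Q hQ.mp.measurable] A := by
    intro R' hR' π' hπ' A hAm B' hB' hAB
    obtain ⟨g, hg, hfg⟩ := hsub (show indicatorConstLp 1 (hπ'.mp.measurable hB')
      (measure_ne_top S.μ _) (1 : ℝ) ∈ K from ⟨R', π', B', hπ', hB', hR', rfl⟩)
    have hgm : MeasurableSet[MeasurableSpace.comap Q inferInstance] (g ⁻¹' {1}) :=
      hg.measurable (measurableSet_singleton 1)
    obtain ⟨D, hD, hDg⟩ := hgm
    refine ⟨hAm, D, hD, ?_⟩
    rw [hDg]
    refine hAB.trans ?_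
    filter_upwards [hfg, indicatorConstLp_coeFn (p := 1) (hs := hπ'.mp.measurable hB')
      (hμs := measure_ne_top S.μ _) (c := (1 : ℝ))] with x h1 h2
    apply propext
    change π' x ∈ B' ↔ g x = 1
    rw [← h1, h2, Set.indicator_apply]
    by_cases h : π' x ∈ B'
    · simp [h]
    · simp [h]
  refine ⟨satAlg S J Q hQ.mp.measurable, isFactorAlg_satAlg hJ hQ, ?_⟩
  rintro m' ⟨R', hR', π', hπ', hm'⟩ A hA
  obtain ⟨hAm, B', hB', hAB⟩ := (hm' A).1 hA
  exact key R' hR' π' hπ' A hAm B' hB' hAB

lemma closureJ (hF : CharClass F) (S : Sys) {ι : Type} [Countable ι] (R : ι → Sys)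
    (hR : ∀ i, F (R i)) (π : ∀ i, S.X → (R i).X) (hπ : ∀ i, FactorMap S (R i) (π i))
    (W : Sys) (ψ : S.X → W.X) (hψ : FactorMap S W ψ) (Λ : (∀ i, (R i).X) → W.X)
    (hΛ : Measurable Λ) (h : ∀ᵐ x ∂S.μ, ψ x = Λ (fun i => π i x)) : F W := by
  set Q : S.X → ∀ i, (R i).X := fun x i => π i x with hQ
  have hQm : Measurable Q := measurable_pi_lambda _ fun i => (hπ i).mp.measurable
  have hQT : ∀ᵐ x ∂S.μ, Q (S.T x) = (MeasurableEquiv.piCongrRight fun i => (R i).T) (Q x) := by
    have := ae_all_iff.2 fun i => (hπ i).eqv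
    filter_upwards [this] with x hx
    funext i
    exact hx i
  have : IsProbabilityMeasure (S.μ.map Q) := Measure.isProbabilityMeasure_map hQm.aemeasurable
  have hρ : MeasurePreserving (MeasurableEquiv.piCongrRight fun i => (R i).T)
      (S.μ.map Q) (S.μ.map Q) := by
    refine ⟨MeasurableEquiv.measurable _, ?_⟩
    rw [Measure.map_map (MeasurableEquiv.measurable _) hQm]
    have : (MeasurableEquiv.piCongrRight fun i => (R i).T) ∘ Q =ᵐ[S.μ] Q ∘ S.T := by
      filter_upwards [hQT] with x hx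
      exact hx.symm
    rw [Measure.map_congr this, ← Measure.map_map hQm S.T.measurable, S.mp.map_eq]
  have hJ : F (joinSys R (S.μ.map Q) hρ) := by
    refine hF.joining ι R _ hρ (fun i => ⟨measurable_pi_apply i, ?_⟩) hR
    rw [Measure.map_map (measurable_pi_apply i) hQm]
    exact (hπ i).mp.map_eq
  refine hF.factor (joinSys R (S.μ.map Q) hρ) W Λ hJ ⟨⟨hΛ, ?_⟩, ?_⟩
  · change (S.μ.map Q).map Λ = W.μ
    rw [Measure.map_map hΛ hQm, ← hψ.mp.map_eq]
    refine Measure.map_congr ?_
    filter_upwards [h] with x hx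
    exact hx.symm
  · change ∀ᵐ z ∂(S.μ.map Q), Λ ((MeasurableEquiv.piCongrRight fun i => (R i).T) z) =
      W.T (Λ z)
    have hms : MeasurableSet {z | Λ ((MeasurableEquiv.piCongrRight fun i => (R i).T) z) =
        W.T (Λ z)} :=
      measurableSet_eq_fun (hΛ.comp (MeasurableEquiv.measurable _))
        (W.T.measurable.comp hΛ)
    rw [ae_map_iff hQm.aemeasurable hms]
    have h' : ∀ᵐ x ∂S.μ, ψ (S.T x) = Λ (Q (S.T x)) :=
      S.mp.quasiMeasurePreserving.ae h
    filter_upwards [h, h', hQT, hψ.eqv] with x h1 h2 h3 h4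
    rw [← h3, ← h2, h4, h1]

section Limit

variable (S : Sys) (Y : Type) [MeasurableSpace Y] [StandardBorelSpace Y] (ν : Measure Y)
  [IsProbabilityMeasure ν] (R : Sys) (π : S.X × Y → R.X) (E : Set R.X)

/-- index set of the coordinates of the limit factor -/
abbrev Ix (Y : Type) [MeasurableSpace Y] [StandardBorelSpace Y] : Type :=
  ℤ × Σ n : ℕ, (MeasurableSpace.countablePartition Y n)

open Classical in
/-- indicator of `(R.T ^ m)⁻¹ E × C` -/
noncomputable def gf (m : ℤ) (C : Set Y) (z : R.X) (y : Y) : ℝ :=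
  if ((R.T.toEquiv : Equiv.Perm R.X) ^ m) z ∈ E ∧ y ∈ C then 1 else 0

/-- the limit factor map -/
noncomputable def Psi (x : S.X) (i : Ix Y) : ℝ :=
  ∫ y, gf Y R E i.1 i.2.2.1 (π (x, y)) y ∂ν

/-- the shift on the `ℤ`-coordinate -/
def shift : (Ix Y → ℝ) ≃ᵐ (Ix Y → ℝ) where
  toFun w := fun p => w (p.1 + 1, p.2)
  invFun w := fun p => w (p.1 - 1, p.2)
  left_inv w := by funext p; simp
  right_inv w := by funext p; simp
  measurable_toFun := measurable_pi_lambda _ fun p => measurable_pi_apply _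
  measurable_invFun := measurable_pi_lambda _ fun p => measurable_pi_apply _

lemma measurable_zpow (m : ℤ) : Measurable ((R.T.toEquiv : Equiv.Perm R.X) ^ m) := by
  have h1 : Measurable (R.T.toEquiv : Equiv.Perm R.X) := R.T.measurable
  have h2 : Measurable (((R.T.toEquiv : Equiv.Perm R.X)⁻¹ : Equiv.Perm R.X)) :=
    R.T.symm.measurable
  have hn : ∀ (σ : Equiv.Perm R.X), Measurable σ → ∀ n : ℕ, Measurable (σ ^ n) := by
    intro σ hσ n
    induction n with
    | zero => simpa using measurable_id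
    | succ n ih =>
      rw [pow_succ]
      exact ih.comp hσ
  obtain ⟨n, rfl | rfl⟩ := m.eq_nat_or_neg
  · rw [zpow_natCast]
    exact hn _ h1 n
  · rw [zpow_neg, zpow_natCast, ← inv_pow]
    exact hn _ h2 n

variable {Y} {R} {E}

lemma measurable_gf (hE : MeasurableSet E) (m : ℤ) {C : Set Y} (hC : MeasurableSet C) :
    Measurable (fun p : R.X × Y => gf Y R E m C p.1 p.2) := by
  unfold gf
  refine Measurable.ite ?_ measurable_const measurable_const
  exact (((measurable_zpow R m).comp measurable_fst) hE).inter (measurable_snd hC)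

lemma gf_bdd (m : ℤ) (C : Set Y) (z : R.X) (y : Y) : |gf Y R E m C z y| ≤ 1 := by
  unfold gf
  split_ifs <;> simp

lemma gf_T (m : ℤ) (C : Set Y) (z : R.X) (y : Y) :
    gf Y R E m C (R.T z) y = gf Y R E (m + 1) C z y := by
  unfold gf
  have : ((R.T.toEquiv : Equiv.Perm R.X) ^ (m + 1)) z =
      ((R.T.toEquiv : Equiv.Perm R.X) ^ m) (R.T z) := by
    rw [zpow_add_one]
    rfl
  rw [this]

variable {π}

lemma measurable_Psi (hπ : Measurable π) (hE : MeasurableSet E) :
    Measurable (Psi S Y ν R π E) := by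
  refine measurable_pi_lambda _ fun i => ?_
  have h1 : Measurable (fun p : S.X × Y => gf Y R E i.1 i.2.2.1 (π p) p.2) :=
    (measurable_gf hE i.1 (MeasurableSpace.measurableSet_countablePartition _ i.2.2.2)).comp
      (hπ.prodMk measurable_snd)
  exact (h1.stronglyMeasurable.integral_prod_right').measurable

lemma Psi_T (hπ : FactorMap (S.prodId Y ν) R π) :
    ∀ᵐ x ∂S.μ, Psi S Y ν R π E (S.T x) = shift Y (Psi S Y ν R π E x) := by
  have h := hπ.eqv
  have h' : ∀ᵐ p ∂(S.μ.prod ν), π (S.T p.1, p.2) = R.T (π p) := h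
  filter_upwards [Measure.ae_ae_of_ae_prod h'] with x hx
  funext i
  change ∫ y, gf Y R E i.1 i.2.2.1 (π (S.T x, y)) y ∂ν =
    ∫ y, gf Y R E (i.1 + 1) i.2.2.1 (π (x, y)) y ∂ν
  refine integral_congr_ae ?_
  filter_upwards [hx] with y hy
  rw [hy, gf_T]

/-- the limit factor -/
noncomputable def limSys (hπ : FactorMap (S.prodId Y ν) R π) (hE : MeasurableSet E) : Sys :=
  haveI : IsProbabilityMeasure (S.μ.map (Psi S Y ν R π E)) :=
    Measure.isProbabilityMeasure_map (measurable_Psi S ν hπ.mp.measurable hE).aemeasurable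
  ⟨Ix Y → ℝ, S.μ.map (Psi S Y ν R π E), shift Y, by
    refine ⟨MeasurableEquiv.measurable _, ?_⟩
    have hm := measurable_Psi S ν hπ.mp.measurable hE
    rw [Measure.map_map (MeasurableEquiv.measurable _) hm]
    have : shift Y ∘ Psi S Y ν R π E =ᵐ[S.μ] Psi S Y ν R π E ∘ S.T := by
      filter_upwards [Psi_T S ν hπ] with x hx
      exact hx.symm
    rw [Measure.map_congr this, ← Measure.map_map hm S.T.measurable, S.mp.map_eq]⟩

lemma factor_lim (hπ : FactorMap (S.prodId Y ν) R π) (hE : MeasurableSet E) :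
    FactorMap S (limSys S ν hπ hE) (Psi S Y ν R π E) :=
  ⟨⟨measurable_Psi S ν hπ.mp.measurable hE, rfl⟩, Psi_T S ν hπ⟩

/-- the averaging map -/
noncomputable def Lam (Y : Type) [MeasurableSpace Y] [StandardBorelSpace Y] (R : Sys)
    (E : Set R.X) (z : ℕ → R.X) (y : ℕ → Y) (i : Ix Y) : ℝ :=
  limsup (fun N : ℕ => (∑ k ∈ Finset.range N, gf Y R E i.1 i.2.2.1 (z k) (y k)) / N) atTop

lemma slln (hπ : Measurable π) (hE : MeasurableSet E) (x : S.X) :
    ∀ᵐ y ∂(Measure.infinitePi fun _ : ℕ => ν),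
      Psi S Y ν R π E x = Lam Y R E (fun k => π (x, y k)) y := by
  have : ∀ i : Ix Y, ∀ᵐ y ∂(Measure.infinitePi fun _ : ℕ => ν),
      Psi S Y ν R π E x i = Lam Y R E (fun k => π (x, y k)) y i := by
    intro i
    have hg : Measurable (fun t : Y => gf Y R E i.1 i.2.2.1 (π (x, t)) t) :=
      (measurable_gf hE i.1 (MeasurableSpace.measurableSet_countablePartition _ i.2.2.2)).comp
        ((hπ.comp measurable_prodMk_left).prodMk measurable_id)
    have hind : iIndepFun (fun (k : ℕ) (y : ℕ → Y) => gf Y R E i.1 i.2.2.1 (π (x, y k)) (y k))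
        (Measure.infinitePi fun _ : ℕ => ν) :=
      iIndepFun_infinitePi (X := fun _ t => gf Y R E i.1 i.2.2.1 (π (x, t)) t) fun _ => hg
    have hmp : ∀ k : ℕ, MeasurePreserving (Function.eval k)
        (Measure.infinitePi fun _ : ℕ => ν) ν := fun k =>
      measurePreserving_eval_infinitePi (fun _ : ℕ => ν) k
    have h := strong_law_ae_real
      (fun (k : ℕ) (y : ℕ → Y) => gf Y R E i.1 i.2.2.1 (π (x, y k)) (y k))
      (μ := Measure.infinitePi fun _ : ℕ => ν) ?_ ?_ ?_
    · filter_upwards [h] with y hy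
      have h0 : ∫ y : ℕ → Y, gf Y R E i.1 i.2.2.1 (π (x, y 0)) (y 0)
          ∂(Measure.infinitePi fun _ : ℕ => ν) = Psi S Y ν R π E x i := by
        have h1 := integral_map (μ := Measure.infinitePi fun _ : ℕ => ν)
          (hmp 0).measurable.aemeasurable
          (f := fun t : Y => gf Y R E i.1 i.2.2.1 (π (x, t)) t) hg.aestronglyMeasurable
        rw [(hmp 0).map_eq] at h1
        exact h1.symm
      rw [← h0]
      exact hy.limsup_eq.symm
    · refine Integrable.of_bound (C := 1) ?_ (Eventually.of_forall fun y => ?_)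
      · exact (hg.comp (measurable_pi_apply 0)).aestronglyMeasurable
      · exact gf_bdd _ _ _ _
    · intro j k hjk
      exact hind.indepFun hjk
    · intro k
      refine ⟨(hg.comp (measurable_pi_apply k)).aemeasurable,
        (hg.comp (measurable_pi_apply 0)).aemeasurable, ?_⟩
      have e : ∀ k : ℕ, (Measure.infinitePi fun _ : ℕ => ν).map
          ((fun t : Y => gf Y R E i.1 i.2.2.1 (π (x, t)) t) ∘ Function.eval k) =
          ν.map (fun t : Y => gf Y R E i.1 i.2.2.1 (π (x, t)) t) := by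
        intro k
        rw [← Measure.map_map hg (hmp k).measurable, (hmp k).map_eq]
      exact (e k).trans (e 0).symm
  filter_upwards [ae_all_iff.2 this] with y hy
  funext i
  exact hy i

lemma lim_mem {F : Sys → Prop} (hF : CharClass F) (hR : F R)
    (hπ : FactorMap (S.prodId Y ν) R π) (hE : MeasurableSet E) :
    F (limSys S ν hπ hE) := by
  have hmp : ∀ k : ℕ, MeasurePreserving (Function.eval k)
      (Measure.infinitePi fun _ : ℕ => ν) ν := fun k =>
    measurePreserving_eval_infinitePi (fun _ : ℕ => ν) k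
  set S' : Sys := S.prodId (ℕ → Y) (Measure.infinitePi fun _ : ℕ => ν) with hS'
  let Z : ℕ ⊕ ℕ → Sys := Sum.elim (fun _ => R) (fun _ => idSys Y ν)
  let q : ∀ j : ℕ ⊕ ℕ, S'.X → (Z j).X := fun j => match j with
    | Sum.inl k => fun p => π (p.1, p.2 k)
    | Sum.inr k => fun p => p.2 k
  have hl : ∀ k : ℕ, MeasurePreserving (fun p : S.X × (ℕ → Y) => (p.1, p.2 k))
      (S.μ.prod (Measure.infinitePi fun _ : ℕ => ν)) (S.μ.prod ν) := fun k =>
    (MeasurePreserving.id S.μ).prod (hmp k)
  have hq : ∀ j, FactorMap S' (Z j) (q j) := by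
    intro j
    match j with
    | Sum.inl k =>
      refine ⟨hπ.mp.comp (hl k), ?_⟩
      have h' : ∀ᵐ p ∂(S.μ.prod ν), π (S.T p.1, p.2) = R.T (π p) := hπ.eqv
      exact (hl k).quasiMeasurePreserving.ae h'
    | Sum.inr k =>
      exact ⟨(hmp k).comp measurePreserving_snd, Eventually.of_forall fun p => rfl⟩
  have hZ : ∀ j, F (Z j) := by
    intro j
    match j with
    | Sum.inl k => exact hR
    | Sum.inr k => exact hF.ident _ fun x => rfl
  have hψ : FactorMap S' (limSys S ν hπ hE) (fun p => Psi S Y ν R π E p.1) := by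
    have h1 := factor_lim S ν hπ hE
    refine ⟨h1.mp.comp measurePreserving_fst, ?_⟩
    exact (measurePreserving_fst (μ := S.μ)
      (ν := Measure.infinitePi fun _ : ℕ => ν)).quasiMeasurePreserving.ae h1.eqv
  have hgm : ∀ i : Ix Y, Measurable (fun p : R.X × Y => gf Y R E i.1 i.2.2.1 p.1 p.2) :=
    fun i => measurable_gf hE i.1 (MeasurableSpace.measurableSet_countablePartition _ i.2.2.2)
  have hLm : Measurable (fun z : ∀ j, (Z j).X =>
      Lam Y R E (fun k => z (Sum.inl k)) (fun k => z (Sum.inr k))) := by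
    refine measurable_pi_lambda _ fun i => ?_
    refine Measurable.limsup fun N => ?_
    refine Measurable.div_const ?_ _
    refine Finset.measurable_fun_sum _ fun k _ => ?_
    have : Measurable (fun z : ∀ j, (Z j).X =>
        ((z (Sum.inl k), z (Sum.inr k)) : R.X × Y)) :=
      (measurable_pi_apply (Sum.inl k)).prodMk (measurable_pi_apply (Sum.inr k))
    exact (hgm i).comp this
  refine closureJ hF S' Z hZ q hq (limSys S ν hπ hE) _ hψ
    (fun z => Lam Y R E (fun k => z (Sum.inl k)) (fun k => z (Sum.inr k))) hLm ?_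
  change ∀ᵐ p ∂(S.μ.prod (Measure.infinitePi fun _ : ℕ => ν)),
    Psi S Y ν R π E p.1 = Lam Y R E (fun k => π (p.1, p.2 k)) (fun k => p.2 k)
  have hms : MeasurableSet {p : S.X × (ℕ → Y) |
      Psi S Y ν R π E p.1 = Lam Y R E (fun k => π (p.1, p.2 k)) (fun k => p.2 k)} := by
    refine measurableSet_eq_fun
      ((measurable_Psi S ν hπ.mp.measurable hE).comp measurable_fst) ?_
    refine measurable_pi_lambda _ fun i => ?_
    refine Measurable.limsup fun N => ?_
    refine Measurable.div_const ?_ _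
    refine Finset.measurable_fun_sum _ fun k _ => ?_
    exact (hgm i).comp ((hπ.mp.measurable.comp (hl k).measurable).prodMk
      ((measurable_pi_apply k).comp measurable_snd))
  exact (Measure.ae_prod_iff_ae_ae hms).2
    (Eventually.of_forall fun x => slln S ν hπ.mp.measurable hE x)

/-- the Radon-Nikodym density read off from the limit factor -/
noncomputable def Th (Y : Type) [MeasurableSpace Y] [StandardBorelSpace Y] (ν : Measure Y)
    (p : (Ix Y → ℝ) × Y) : ℝ :=
  limsup (fun n : ℕ => p.1 (0, ⟨n, ⟨MeasurableSpace.countablePartitionSet n p.2,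
    MeasurableSpace.countablePartitionSet_mem n p.2⟩⟩) /
      (ν (MeasurableSpace.countablePartitionSet n p.2)).toReal) atTop

lemma measurable_Th : Measurable (Th Y ν) := by
  refine Measurable.limsup fun n => ?_
  have : Fintype (MeasurableSpace.countablePartition Y n) := Fintype.ofFinite _
  have e : (fun p : (Ix Y → ℝ) × Y => p.1 (0, ⟨n, ⟨MeasurableSpace.countablePartitionSet n p.2,
      MeasurableSpace.countablePartitionSet_mem n p.2⟩⟩) /
      (ν (MeasurableSpace.countablePartitionSet n p.2)).toReal) =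
      fun p => ∑ C : MeasurableSpace.countablePartition Y n,
        Set.indicator {p : (Ix Y → ℝ) × Y | p.2 ∈ C.1}
          (fun p => p.1 (0, ⟨n, C⟩) / (ν C.1).toReal) p := by
    funext p
    rw [Finset.sum_eq_single ⟨MeasurableSpace.countablePartitionSet n p.2,
      MeasurableSpace.countablePartitionSet_mem n p.2⟩]
    · rw [Set.indicator_of_mem]
      exact MeasurableSpace.mem_countablePartitionSet n p.2
    · intro C _ hC
      rw [Set.indicator_of_notMem]
      intro hp
      apply hC
      exact Subtype.ext (MeasurableSpace.countablePartitionSet_of_mem C.2 hp).symm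
    · intro h
      exact absurd (Finset.mem_univ _) h
  rw [e]
  refine Finset.measurable_fun_sum _ fun C _ => Measurable.indicator ?_ ?_
  · exact ((measurable_pi_apply _).comp measurable_fst).div_const _
  · exact measurable_snd (MeasurableSpace.measurableSet_countablePartition n C.2)

lemma Th_eq (hπ : Measurable π) (hE : MeasurableSet E) (x : S.X) :
    ∀ᵐ y ∂ν, (π (x, y) ∈ E ↔ Th Y ν (Psi S Y ν R π E x, y) = 1) := by
  classical
  have hπx : Measurable (fun y => π (x, y)) := hπ.comp measurable_prodMk_left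
  let κ : Kernel Unit (Y × R.X) := Kernel.const Unit (ν.map fun y => (y, π (x, y)))
  let η : Kernel Unit Y := Kernel.const Unit ν
  have hm2 : Measurable (fun y : Y => (y, π (x, y))) := measurable_id.prodMk hπx
  have : IsFiniteKernel κ := by
    have : IsProbabilityMeasure (ν.map fun y => (y, π (x, y))) :=
      Measure.isProbabilityMeasure_map hm2.aemeasurable
    infer_instance
  have hfst : Kernel.fst κ ≤ η := by
    refine le_of_eq ?_
    ext u : 1
    rw [Kernel.fst_apply]
    change (ν.map fun y => (y, π (x, y))).map Prod.fst = ν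
    rw [Measure.map_map measurable_fst hm2]
    exact Measure.map_id
  have hd : ∀ᵐ y ∂ν, Kernel.density κ η () y E =
      Set.indicator {y | π (x, y) ∈ E} (fun _ => (1 : ℝ)) y := by
    refine Integrable.ae_eq_of_forall_setIntegral_eq _ _ ?_ ?_ ?_
    · exact Kernel.integrable_density hfst () hE
    · exact (integrable_const 1).indicator (hπx hE)
    · intro A hA _
      have h1 := Kernel.setIntegral_density hfst () hE hA
      change ∫ y in A, Kernel.density κ η () y E ∂ν = _ at h1
      have hEm : MeasurableSet {y | π (x, y) ∈ E} := hπx hE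
      rw [h1, setIntegral_indicator hEm]
      rw [setIntegral_const, smul_eq_mul, mul_one]
      change (ν.map fun y => (y, π (x, y))).real (A ×ˢ E) = _
      rw [map_measureReal_apply hm2 (hA.prod hE)]
      rfl
  filter_upwards [hd] with y hy
  have h2 : Th Y ν (Psi S Y ν R π E x, y) = Kernel.density κ η () y E := by
    unfold Th Kernel.density
    congr 1
    funext n
    unfold Kernel.densityProcess
    rw [ENNReal.toReal_div]
    congr 1
    set C := MeasurableSpace.countablePartitionSet n y with hC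
    have hCm : MeasurableSet C := MeasurableSpace.measurableSet_countablePartitionSet n y
    change Psi S Y ν R π E x (0, ⟨n, ⟨C, _⟩⟩) =
      ((ν.map fun y => (y, π (x, y))) (C ×ˢ E)).toReal
    rw [Measure.map_apply hm2 (hCm.prod hE)]
    unfold Psi
    have h3 : (fun t : Y => gf Y R E 0 C (π (x, t)) t) =
        Set.indicator ((fun y => (y, π (x, y))) ⁻¹' (C ×ˢ E)) (fun _ => (1 : ℝ)) := by
      funext t
      unfold gf
      rw [Set.indicator_apply]
      refine if_congr ?_ rfl rfl
      simp [and_comm]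
    change ∫ t, gf Y R E 0 C (π (x, t)) t ∂ν = _
    rw [h3, integral_indicator_const _ (hm2 (hCm.prod hE)), smul_eq_mul, mul_one]
    rfl
  rw [h2, hy, Set.indicator_apply]
  by_cases h : π (x, y) ∈ E
  · simp [h]
  · simp [h]

end Limit

lemma forward (hF : CharClass F) (S : Sys) (Y : Type) [mY : MeasurableSpace Y]
    [StandardBorelSpace Y] (ν : Measure Y) [IsProbabilityMeasure ν] (R : Sys) (hR : F R)
    (π : S.X × Y → R.X) (hπ : FactorMap (S.prodId Y ν) R π) (E : Set R.X)
    (hE : MeasurableSet E) :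
    ∃ (m' : MeasurableSpace S.X), IsFactorAlg F S m' ∧ ∃ B : Set (S.X × Y),
      MeasurableSet[m'.prod mY] B ∧ π ⁻¹' E =ᵐ[(S.prodId Y ν).μ] B := by
  have hΨm := measurable_Psi S ν hπ.mp.measurable hE
  have hms : MeasurableSet {p : S.X × Y |
      (π p ∈ E ↔ Th Y ν (Psi S Y ν R π E p.1, p.2) = 1)} := by
    have e1 : MeasurableSet {p : S.X × Y | π p ∈ E} := hπ.mp.measurable hE
    have e2 : MeasurableSet {p : S.X × Y | Th Y ν (Psi S Y ν R π E p.1, p.2) = 1} :=
      ((measurable_Th ν).comp (((measurable_Psi S ν hπ.mp.measurable hE).comp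
        measurable_fst).prodMk measurable_snd)) (measurableSet_singleton 1)
    exact e1.iff e2
  have h2 : ∀ᵐ p ∂(S.μ.prod ν),
      (π p ∈ E ↔ Th Y ν (Psi S Y ν R π E p.1, p.2) = 1) :=
    (Measure.ae_prod_iff_ae_ae hms).2
      (Eventually.of_forall fun x => Th_eq S ν hπ.mp.measurable hE x)
  have h3 : ∀ D : Set (Ix Y → ℝ), MeasurableSet D →
      MeasurableSet[satAlg S (limSys S ν hπ hE) (Psi S Y ν R π E) hΨm]
        (Psi S Y ν R π E ⁻¹' D) := fun D hD => ⟨hΨm hD, D, hD, ae_eq_refl _⟩
  have h4 : MeasurableSet[(satAlg S (limSys S ν hπ hE) (Psi S Y ν R π E) hΨm).prod mY]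
      ((fun p : S.X × Y => (Psi S Y ν R π E p.1, p.2)) ⁻¹' (Th Y ν ⁻¹' {1})) := by
    generalize satAlg S (limSys S ν hπ hE) (Psi S Y ν R π E) hΨm = m' at h3
    have hΨ : @Measurable _ _ m' _ (Psi S Y ν R π E) := fun D hD => h3 D hD
    have h1 : @Measurable _ _ (m'.prod mY) _
        (fun p : S.X × Y => (Psi S Y ν R π E p.1, p.2)) :=
      (hΨ.comp (@measurable_fst _ _ m' mY)).prodMk (@measurable_snd _ _ m' mY)
    exact h1 ((measurable_Th ν) (measurableSet_singleton 1))
  refine ⟨satAlg S (limSys S ν hπ hE) (Psi S Y ν R π E) hΨm,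
    isFactorAlg_satAlg (lim_mem S ν hF hR hπ hE) (factor_lim S ν hπ hE),
    _, h4, ?_⟩
  filter_upwards [h2] with p hp
  exact propext hp

lemma backward_fst (S : Sys) (Y : Type) [mY : MeasurableSpace Y]
    [StandardBorelSpace Y] (ν : Measure Y) [IsProbabilityMeasure ν] (R₁ : Sys) (hR₁ : F R₁)
    (π₁ : S.X → R₁.X) (hπ₁ : FactorMap S R₁ π₁) (D : Set S.X) (hDm : MeasurableSet D)
    (D' : Set R₁.X) (hD' : MeasurableSet D') (hDD : D =ᵐ[S.μ] π₁ ⁻¹' D') :
    ∃ m' : MeasurableSpace (S.prodId Y ν).X, IsFactorAlg F (S.prodId Y ν) m' ∧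
      MeasurableSet[m'] (Prod.fst ⁻¹' D : Set (S.X × Y)) := by
  have hq : FactorMap (S.prodId Y ν) R₁ (fun p => π₁ p.1) := by
    refine ⟨hπ₁.mp.comp measurePreserving_fst, ?_⟩
    exact (measurePreserving_fst (μ := S.μ) (ν := ν)).quasiMeasurePreserving.ae hπ₁.eqv
  refine ⟨_, isFactorAlg_satAlg hR₁ hq, measurable_fst hDm, D', hD', ?_⟩
  exact (measurePreserving_fst (μ := S.μ) (ν := ν)).quasiMeasurePreserving.ae_eq hDD

lemma backward_snd (hF : CharClass F) (S : Sys) (Y : Type) [mY : MeasurableSpace Y]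
    [StandardBorelSpace Y] (ν : Measure Y) [IsProbabilityMeasure ν] (C : Set Y)
    (hC : MeasurableSet C) :
    ∃ m' : MeasurableSpace (S.prodId Y ν).X, IsFactorAlg F (S.prodId Y ν) m' ∧
      MeasurableSet[m'] (Prod.snd ⁻¹' C : Set (S.X × Y)) := by
  have hq : FactorMap (S.prodId Y ν) (idSys Y ν) (fun p => p.2) :=
    ⟨measurePreserving_snd (μ := S.μ) (ν := ν), Eventually.of_forall fun _ => rfl⟩
  have hI : F (idSys Y ν) := hF.ident _ fun _ => rfl
  exact ⟨_, isFactorAlg_satAlg hI hq, measurable_snd hC, C, hC, ae_eq_refl _⟩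

theorem product_formula (hF : CharClass F) (S : Sys) (Y : Type) [mY : MeasurableSpace Y]
    [StandardBorelSpace Y] (ν : Measure Y) [IsProbabilityMeasure ν]
    (a : MeasurableSpace S.X) (b : MeasurableSpace (S.prodId Y ν).X)
    (ha : IsLargest F S a) (hb : IsLargest F (S.prodId Y ν) b) (A : Set (S.prodId Y ν).X) :
    MeasurableSet[b] A ↔ (MeasurableSet[(S.prodId Y ν).mX] A ∧ ∃ B : Set (S.X × Y),
      MeasurableSet[a.prod mY] B ∧ A =ᵐ[(S.prodId Y ν).μ] B) := by
  obtain ⟨⟨R, hR, π, hπ, hbA⟩, hmax⟩ := hb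
  obtain ⟨⟨R₁, hR₁, π₁, hπ₁, haA⟩, hmax₁⟩ := ha
  constructor
  · intro hA
    obtain ⟨hAm, E, hE, hAE⟩ := (hbA A).1 hA
    obtain ⟨m', hm', B, hB, hBE⟩ := forward hF S Y ν R hR π hπ E hE
    refine ⟨hAm, B, ?_, hAE.trans hBE⟩
    have hle : m'.prod mY ≤ a.prod mY :=
      sup_le_sup (MeasurableSpace.comap_mono (hmax₁ m' hm')) le_rfl
    exact hle _ hB
  · rintro ⟨hAm, B, hB, hAB⟩
    have hle : a.prod mY ≤ b := by
      refine sup_le ?_ ?_
      · rintro _ ⟨D, hD, rfl⟩
        obtain ⟨hDm, D', hD', hDD⟩ := (haA D).1 hD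
        obtain ⟨m', hm', hmD⟩ := backward_fst S Y ν R₁ hR₁ π₁ hπ₁ D hDm D' hD' hDD
        exact hmax m' hm' _ hmD
      · rintro _ ⟨C, hC, rfl⟩
        obtain ⟨m', hm', hmD⟩ := backward_snd hF S Y ν C hC
        exact hmax m' hm' _ hmD
    obtain ⟨hBm, E, hE, hBE⟩ := (hbA B).1 (hle _ hB)
    exact (hbA A).2 ⟨hAm, E, hE, hAB.trans hBE⟩

/-- **Main result.** Let `F` be a characteristic class of automorphisms of standard probability
spaces containing the identity maps.  Every automorphism has a largest factor in `F`, and for every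
automorphism `S` (ergodic or not) and every standard probability space `(Y, ν)` the largest factor
in `F` of `S × Id_Y` is, modulo null sets, the product of the largest factor in `F` of `S` with the
full σ-algebra of `Y`. -/
theorem result :
    (∀ F : Sys → Prop, CharClass F → ∀ S : Sys, ∃ m : MeasurableSpace S.X, IsLargest F S m) ∧
    ∀ F : Sys → Prop, CharClass F → ∀ (S : Sys) (Y : Type) [mY : MeasurableSpace Y]
      [StandardBorelSpace Y] (ν : Measure Y) [IsProbabilityMeasure ν]
      (a : MeasurableSpace S.X) (b : MeasurableSpace (S.prodId Y ν).X),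
      IsLargest F S a → IsLargest F (S.prodId Y ν) b →
      ∀ A : Set (S.prodId Y ν).X, MeasurableSet[b] A ↔
        (MeasurableSet[(S.prodId Y ν).mX] A ∧ ∃ B : Set (S.X × Y),
          MeasurableSet[a.prod mY] B ∧ A =ᵐ[(S.prodId Y ν).μ] B) :=
  ⟨fun _ hF S => exists_largest hF S,
    fun _ hF S Y _ _ ν _ a b ha hb A => product_formula hF S Y ν a b ha hb A⟩

end Pool.Agent.Results.MP_5351bf_an.IdentityProduct
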